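import Pool.Agent.Lib.MP_d4c4f0_nt.ZS.Final

/-!
# The sum `Z_p(16)` modulo `p^2`

For every prime `p > 5` the value modulo `p^2` of
`Z_p(16) = ∑_{j<p} C(2j,j) f_j / 16^j` (`f_j` the Franel numbers) predicted by its class modulo `20`.
-/

set_option autoImplicit false

open Finset

namespace Pool.Agent.Results.MP_d4c4f0_nt

/-- The Franel numbers `f_j = ∑_{i ≤ j} C(j,i)^3`. -/
def franel (j : ℕ) : ℕ := ∑ i ∈ range (j + 1), j.choose i ^ 3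

/-- `Z_p(m) = ∑_{j<p} C(2j,j) f_j m^(-j)`, a rational number. -/
def franelSum (p : ℕ) (m : ℚ) : ℚ :=
  ∑ j ∈ range p, ((2 * j).choose j : ℚ) * (franel j : ℚ) / m ^ j

/-- `x ≡ y` modulo `p^2` in the ring of rational numbers with denominator prime to `p`:
`x - y = p^2 (a / b)` with integers `a, b`, `p ∤ b`. -/
def CongrSq (p : ℕ) (x y : ℚ) : Prop :=
  ∃ a b : ℤ, ¬ (p : ℤ) ∣ b ∧ x - y = (p : ℚ) ^ 2 * ((a : ℚ) / (b : ℚ))

namespace FranelSum16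

theorem sum_eq (p : ℕ) : franelSum p 16 = Pool.Agent.Lib.MP_d4c4f0_nt.Z16 p := by
  simp only [franelSum, Pool.Agent.Lib.MP_d4c4f0_nt.Z16, Pool.Agent.Lib.MP_d4c4f0_nt.vr,
    Pool.Agent.Lib.MP_d4c4f0_nt.fr, franel]
  push_cast
  rfl

theorem result : ∀ p : ℕ, p.Prime → 5 < p →
    (∀ x y : ℤ, (p % 20 = 1 ∨ p % 20 = 9) → (p : ℤ) = x ^ 2 + 5 * y ^ 2 →
      CongrSq p (franelSum p 16) (4 * (x : ℚ) ^ 2 - 2 * p)) ∧
    (∀ x y : ℤ, (p % 20 = 3 ∨ p % 20 = 7) → 2 * (p : ℤ) = x ^ 2 + 5 * y ^ 2 →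
      CongrSq p (franelSum p 16) (2 * (x : ℚ) ^ 2 - 2 * p)) ∧
    ((p % 20 = 11 ∨ p % 20 = 13 ∨ p % 20 = 17 ∨ p % 20 = 19) →
      CongrSq p (franelSum p 16) 0) := by
  intro p hp h5
  refine ⟨fun x y hm h => ?_, fun x y hm h => ?_, fun hm => ?_⟩
  · rw [CongrSq, sum_eq]
    exact Pool.Agent.Lib.MP_d4c4f0_nt.Z16_i hp h5 hm h
  · rw [CongrSq, sum_eq]
    exact Pool.Agent.Lib.MP_d4c4f0_nt.Z16_ii hp h5 hm h
  · rw [CongrSq, sum_eq, sub_zero]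
    exact Pool.Agent.Lib.MP_d4c4f0_nt.Z16_iii hp h5 hm

end FranelSum16

end Pool.Agent.Results.MP_d4c4f0_nt
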